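import Pool.Agent.Lib.MP_7f8aca_lc.Trans

set_option autoImplicit false

open FirstOrder FirstOrder.Language

namespace Pool.Agent.Lib.MP_7f8aca_lc

/-- codes of formulas -/
inductive C : Type
  | bot : C
  | eqc : C
  | sym : ℕ → C
  | imp : C → C → C
  | all : C → C
  | drop : C → C

/-- operations on codes and stacks -/
structure Ops (V : Type) where
  bot : V
  eqc : V
  sym : ℕ → V
  imp : V → V → V
  all : V → V
  drop : V → V
  cons : V → V → V

variable {V : Type}

/-- value of a code -/
def Ops.ev (O : Ops V) : C → V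
  | C.bot => O.bot
  | C.eqc => O.eqc
  | C.sym i => O.sym i
  | C.imp a b => O.imp (O.ev a) (O.ev b)
  | C.all a => O.all (O.ev a)
  | C.drop a => O.drop (O.ev a)

/-- push a tuple on a stack -/
def push (cons : V → V → V) : ∀ {k : ℕ}, (Fin k → V) → V → V
  | 0, _, s => s
  | _ + 1, zs, s => cons (zs 0) (push cons (fun i => zs i.succ) s)

/-- stack of an environment -/
def envc (cons : V → V → V) : ∀ {n : ℕ}, (Fin n → V) → V → V
  | 0, _, s => s
  | n + 1, xs, s => cons (xs (Fin.last n)) (envc cons (fun i => xs i.castSucc) s)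

/-- Tarski clauses -/
structure TarskiP (O : Ops V) (sat : V → V → Prop) : Prop where
  bot : ∀ s, ¬ sat O.bot s
  eqc : ∀ x y s, sat O.eqc (O.cons x (O.cons y s)) ↔ x = y
  imp : ∀ a b s, sat (O.imp a b) s ↔ (sat a s → sat b s)
  all : ∀ a s, sat (O.all a) s ↔ ∀ x, sat a (O.cons x s)
  drop : ∀ a x y s, sat (O.drop a) (O.cons x (O.cons y s)) ↔ sat a (O.cons x s)

variable {K : FirstOrder.Language.{0, 0}}

/-- clauses for the symbols -/
structure SymP (O : Ops V) (idx : K.Symbols → ℕ) (R : K.Structure V) (sat : V → V → Prop) :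
    Prop where
  fn : ∀ (k : ℕ) (f : K.Functions k) (zs : Fin k → V) (y s : V),
    sat (O.sym (idx (Sum.inl ⟨k, f⟩))) (push O.cons zs (O.cons y s)) ↔ y = R.funMap f zs
  rl : ∀ (k : ℕ) (r : K.Relations k) (zs : Fin k → V) (s : V),
    sat (O.sym (idx (Sum.inr ⟨k, r⟩))) (push O.cons zs s) ↔ R.RelMap r zs

/-- code of a variable -/
def varc : ∀ {n : ℕ}, Fin n → C
  | 0 => Fin.elim0
  | _ + 1 => Fin.lastCases C.eqc fun i => C.drop (varc i)

/-- evaluate a tuple of terms, push the values, run the body -/
def chain : ∀ {k : ℕ}, (Fin k → C) → C → C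
  | 0, _, b => b
  | k + 1, cs, b => chain (fun i => cs i.succ) (C.all (C.imp (C.drop^[k] (cs 0)) b))

/-- code of the value of a term -/
def codeT (idx : K.Symbols → ℕ) {n : ℕ} : K.Term (Empty ⊕ Fin n) → C
  | Term.var (Sum.inl e) => e.elim
  | Term.var (Sum.inr i) => varc i
  | @Term.func _ _ k f ts =>
      chain (fun i => C.drop (codeT idx (ts i))) (C.sym (idx (Sum.inl ⟨k, f⟩)))

/-- code of a formula -/
def codeF (idx : K.Symbols → ℕ) : ∀ {n : ℕ}, K.BoundedFormula Empty n → C
  | _, BoundedFormula.falsum => C.bot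
  | _, BoundedFormula.equal s t => C.all (C.imp (codeT idx s) (codeT idx t))
  | _, @BoundedFormula.rel _ _ _ k r ts =>
      chain (fun i => codeT idx (ts i)) (C.sym (idx (Sum.inr ⟨k, r⟩)))
  | _, BoundedFormula.imp φ ψ => C.imp (codeF idx φ) (codeF idx ψ)
  | _, BoundedFormula.all φ => C.all (codeF idx φ)

section
variable {O : Ops V} {sat : V → V → Prop}

lemma sat_varc (h : TarskiP O sat) {n : ℕ} (i : Fin n) (xs : Fin n → V) (y s : V) :
    sat (O.ev (varc i)) (O.cons y (envc O.cons xs s)) ↔ y = xs i := by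
  induction n with
  | zero => exact i.elim0
  | succ n ih =>
    refine Fin.lastCases ?_ (fun j => ?_) i
    · simp only [varc, Fin.lastCases_last, Ops.ev, envc, h.eqc]
    · simp only [varc, Fin.lastCases_castSucc, Ops.ev, envc, h.drop, ih]

lemma sat_dropn (h : TarskiP O sat) {k : ℕ} (zs : Fin k → V) (c : C) (y s : V) :
    sat (O.ev (C.drop^[k] c)) (O.cons y (push O.cons zs s)) ↔ sat (O.ev c) (O.cons y s) := by
  induction k with
  | zero => rfl
  | succ k ih =>
    rw [Function.iterate_succ_apply']
    simp only [Ops.ev, push, h.drop, ih]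

lemma sat_chain (h : TarskiP O sat) {k : ℕ} (cs : Fin k → C) (b : C) (s : V) :
    sat (O.ev (chain cs b)) s ↔
      ∀ zs : Fin k → V, (∀ i, sat (O.ev (cs i)) (O.cons (zs i) s)) →
        sat (O.ev b) (push O.cons zs s) := by
  induction k generalizing b with
  | zero => simp [chain, push]
  | succ k ih =>
    simp only [chain, ih, Ops.ev, h.all, h.imp, sat_dropn h]
    constructor
    · intro H zs hz
      exact H (fun i => zs i.succ) (fun i => hz i.succ) (zs 0) (hz 0)
    · intro H zs hz x hx
      exact H (Fin.cons x zs) fun i => Fin.cases hx (fun j => hz j) i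

variable {idx : K.Symbols → ℕ} [R : K.Structure V]

lemma sat_codeT (h : TarskiP O sat) (hs : SymP O idx R sat) {n : ℕ} (t : K.Term (Empty ⊕ Fin n))
    (xs : Fin n → V) (y s : V) :
    sat (O.ev (codeT idx t)) (O.cons y (envc O.cons xs s)) ↔
      y = t.realize (Sum.elim (default : Empty → V) xs) := by
  induction t generalizing y with
  | var a =>
    rcases a with e | i
    · exact e.elim
    · simp only [codeT, sat_varc h, Term.realize_var, Sum.elim_inr]
  | func f ts ih =>
    simp only [codeT, sat_chain h, Ops.ev, h.drop, ih, hs.fn, Term.realize_func]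
    constructor
    · intro H
      exact H _ fun _ => rfl
    · intro H zs hz
      rw [H, funext hz]

lemma sat_codeF (h : TarskiP O sat) (hs : SymP O idx R sat) {n : ℕ}
    (φ : K.BoundedFormula Empty n) (xs : Fin n → V) (s : V) :
    sat (O.ev (codeF idx φ)) (envc O.cons xs s) ↔ φ.Realize default xs := by
  induction φ with
  | falsum => simp only [codeF, Ops.ev, h.bot, BoundedFormula.Realize]
  | equal t u =>
    simp only [codeF, Ops.ev, h.all, h.imp, sat_codeT h hs, BoundedFormula.Realize]
    exact ⟨fun H => H _ rfl, fun H x hx => hx.trans H⟩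
  | rel r ts =>
    simp only [codeF, sat_chain h, Ops.ev, sat_codeT h hs, hs.rl, BoundedFormula.Realize]
    constructor
    · intro H
      exact H _ fun _ => rfl
    · intro H zs hz
      rw [funext hz]
      exact H
  | imp φ ψ ih1 ih2 => simp only [codeF, Ops.ev, h.imp, ih1, ih2, BoundedFormula.Realize]
  | all φ ih =>
    simp only [codeF, Ops.ev, h.all, BoundedFormula.Realize, ← ih, envc, Fin.snoc_last,
      Fin.snoc_castSucc]

lemma sat_sentence (h : TarskiP O sat) (hs : SymP O idx R sat) (φ : K.Sentence) (s : V) :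
    sat (O.ev (codeF idx φ)) s ↔ V ⊨ φ :=
  sat_codeF h hs φ default s

end

/-- numerical codes -/
def enc : C → ℕ
  | C.bot => Nat.pair 0 0
  | C.eqc => Nat.pair 1 0
  | C.sym i => Nat.pair 2 i
  | C.imp a b => Nat.pair 3 (Nat.pair (enc a) (enc b))
  | C.all a => Nat.pair 4 (enc a)
  | C.drop a => Nat.pair 5 (enc a)

lemma enc_inj : Function.Injective enc := by
  intro a b h
  induction a generalizing b with
  | bot => cases b <;> simp_all [enc, Nat.pair_eq_pair]
  | eqc => cases b <;> simp_all [enc, Nat.pair_eq_pair]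
  | sym i => cases b <;> simp_all [enc, Nat.pair_eq_pair]
  | imp a a' ih1 ih2 =>
    cases b <;> simp only [enc, Nat.pair_eq_pair] at h <;> try omega
    rw [ih1 h.2.1, ih2 h.2.2]
  | all a ih =>
    cases b <;> simp only [enc, Nat.pair_eq_pair] at h <;> try omega
    rw [ih h.2]
  | drop a ih =>
    cases b <;> simp only [enc, Nat.pair_eq_pair] at h <;> try omega
    rw [ih h.2]

instance : Nonempty C := ⟨C.bot⟩

/-- decoding -/
noncomputable def dec : ℕ → C := Function.invFun enc

lemma dec_enc (c : C) : dec (enc c) = c := Function.leftInverse_invFun enc_inj c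

/-- decoding of lists -/
def decL (s : ℕ) : List ℕ := (Encodable.decode (α := List ℕ) s).getD []

lemma decL_enc (l : List ℕ) : decL (Encodable.encode l) = l := by simp [decL]

/-- the standard operations -/
noncomputable def stdO : Ops ℕ where
  bot := enc C.bot
  eqc := enc C.eqc
  sym i := enc (C.sym i)
  imp a b := enc (C.imp (dec a) (dec b))
  all a := enc (C.all (dec a))
  drop a := enc (C.drop (dec a))
  cons x s := Encodable.encode (x :: decL s)

/-- evaluation of codes -/
def evalC (idx : K.Symbols → ℕ) (R : K.Structure ℕ) : C → List ℕ → Prop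
  | C.bot, _ => False
  | C.eqc, l => ∃ x s, l = x :: x :: s
  | C.sym i, l =>
      (∃ (k : ℕ) (f : K.Functions k) (zs : Fin k → ℕ) (s : List ℕ), idx (Sum.inl ⟨k, f⟩) = i ∧
        l = List.ofFn zs ++ R.funMap f zs :: s) ∨
      (∃ (k : ℕ) (r : K.Relations k) (zs : Fin k → ℕ) (s : List ℕ), idx (Sum.inr ⟨k, r⟩) = i ∧
        l = List.ofFn zs ++ s ∧ R.RelMap r zs)
  | C.imp a b, l => evalC idx R a l → evalC idx R b l
  | C.all a, l => ∀ x, evalC idx R a (x :: l)
  | C.drop a, l => ∃ x y s, l = x :: y :: s ∧ evalC idx R a (x :: s)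

/-- the satisfaction relation of a structure on `ℕ` -/
def satOf (idx : K.Symbols → ℕ) (R : K.Structure ℕ) (a s : ℕ) : Prop :=
  evalC idx R (dec a) (decL s)

lemma decL_cons (x s : ℕ) : decL (stdO.cons x s) = x :: decL s := decL_enc _

lemma decL_push {k : ℕ} (zs : Fin k → ℕ) (s : ℕ) :
    decL (push stdO.cons zs s) = List.ofFn zs ++ decL s := by
  induction k with
  | zero => simp [push]
  | succ k ih => rw [push, decL_cons, ih, List.ofFn_succ, List.cons_append]

lemma tarski_satOf (idx : K.Symbols → ℕ) (R : K.Structure ℕ) : TarskiP stdO (satOf idx R) where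
  bot s := by simp only [satOf, stdO, dec_enc, evalC, not_false_iff]
  eqc x y s := by
    simp only [satOf, decL_cons]
    simp only [stdO, dec_enc, evalC, List.cons.injEq]
    constructor
    · rintro ⟨z, s', h1, h2, -⟩
      rw [h1, h2]
    · rintro rfl
      exact ⟨_, _, rfl, rfl, rfl⟩
  imp a b s := by simp only [satOf, stdO, dec_enc, evalC]
  all a s := by
    simp only [satOf, decL_cons]
    simp only [stdO, dec_enc, evalC]
  drop a x y s := by
    simp only [satOf, decL_cons]
    simp only [stdO, dec_enc, evalC, List.cons.injEq]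
    constructor
    · rintro ⟨x', y', s', ⟨rfl, rfl, rfl⟩, h⟩
      exact h
    · intro h
      exact ⟨_, _, _, ⟨rfl, rfl, rfl⟩, h⟩

lemma sym_satOf (idx : K.Symbols → ℕ) (hidx : Function.Injective idx) (R : K.Structure ℕ) :
    SymP stdO idx R (satOf idx R) where
  fn k f zs y s := by
    simp only [satOf, decL_push, decL_cons]
    simp only [stdO, dec_enc, evalC]
    constructor
    · rintro (⟨k', f', zs', s', h1, h2⟩ | ⟨k', r, zs', s', h1, -⟩)
      · have h3 := Sum.inl.inj (hidx h1)
        cases h3
        obtain ⟨h4, h5⟩ := List.append_inj h2 (by simp)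
        rw [List.ofFn_injective h4]
        exact (List.cons.inj h5).1
      · cases hidx h1
    · rintro rfl
      exact Or.inl ⟨k, f, zs, _, rfl, rfl⟩
  rl k r zs s := by
    simp only [satOf, decL_push]
    simp only [stdO, dec_enc, evalC]
    constructor
    · rintro (⟨k', f', zs', s', h1, -⟩ | ⟨k', r', zs', s', h1, h2, h6⟩)
      · cases hidx h1
      · have h3 := Sum.inr.inj (hidx h1)
        cases h3
        obtain ⟨h4, -⟩ := List.append_inj h2 (by simp)
        rw [List.ofFn_injective h4]
        exact h6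
    · intro h
      exact Or.inr ⟨k, r, zs, _, rfl, rfl, h⟩

end Pool.Agent.Lib.MP_7f8aca_lc
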