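import Mathlib

set_option autoImplicit false

open FirstOrder FirstOrder.Language

namespace Pool.Agent.Lib.MP_7f8aca_lc

/-- function symbols of the language of bounded arithmetic -/
inductive BF : ℕ → Type
  | zero : BF 0
  | succ : BF 1
  | len : BF 1
  | half : BF 1
  | add : BF 2
  | mul : BF 2
  | smash : BF 2

/-- relation symbol of the language of bounded arithmetic -/
inductive BR : ℕ → Type
  | le : BR 2

/-- the language of bounded arithmetic -/
def LB : FirstOrder.Language.{0, 0} := ⟨BF, BR⟩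

/-- the standard model -/
@[reducible] def stdB : LB.Structure ℕ where
  funMap
    | BF.zero, _ => 0
    | BF.succ, v => v 0 + 1
    | BF.len, v => Nat.size (v 0)
    | BF.half, v => v 0 / 2
    | BF.add, v => v 0 + v 1
    | BF.mul, v => v 0 * v 1
    | BF.smash, v => 2 ^ (Nat.size (v 0) * Nat.size (v 1))
  RelMap
    | BR.le, v => v 0 ≤ v 1

/-- numerals -/
def num {α : Type} : ℕ → LB.Term α
  | 0 => Term.func BF.zero ![]
  | m + 1 => Term.func BF.succ ![num m]

/-- the polynomial induction axiom of a formula `φ(x, y₁ … yₙ)`, where `x` is the variable `none` -/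
noncomputable def pind {n : ℕ} (φ : LB.Formula (Option (Fin n))) : LB.Sentence :=
  let x : LB.Term (Fin n ⊕ Unit) := Term.var (Sum.inr ())
  let inst : LB.Term (Fin n ⊕ Unit) → LB.Formula (Fin n ⊕ Unit) := fun t =>
    φ.subst fun o => o.elim t fun i => Term.var (Sum.inl i)
  Formula.iAlls (Fin n) (Formula.relabel Sum.inr
    (((inst (num 0)).iAlls Unit ⊓
      ((inst (Term.func BF.half ![x])).imp (inst x)).iAlls Unit).imp ((inst x).iAlls Unit)))

/-- polynomial induction for all formulas -/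
def PIND : LB.Theory := {σ | ∃ (n : ℕ) (φ : LB.Formula (Option (Fin n))), σ = pind φ}

/-- the membership symbol -/
inductive SR : ℕ → Type
  | mem : SR 2

/-- the language of set theory -/
def LS : FirstOrder.Language.{0, 0} := ⟨fun _ => Empty, SR⟩

/-- the formula `a ∈ b` -/
def mem {n : ℕ} (a b : Fin n) : LS.BoundedFormula Empty n := BoundedFormula.rel SR.mem ![&a, &b]

/-- adjunctive set theory -/
def AS : LS.Theory :=
  {∃' ∀' ∼(mem 1 0), ∀' ∀' ∃' ∀' (mem 3 2 ⇔ (mem 3 0 ⊔ (&3 =' &1)))}

/-- one-dimensional translations: a domain formula, for every function symbol a formula for its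
graph (the value is the variable `none`), for every relation symbol a formula -/
structure Tr (K L : FirstOrder.Language.{0, 0}) where
  dom : L.Formula Unit
  fn : ∀ {k : ℕ}, K.Functions k → L.Formula (Option (Fin k))
  rl : ∀ {k : ℕ}, K.Relations k → L.Formula (Fin k)

variable {K L : FirstOrder.Language.{0, 0}}

/-- the variable `none` is the value of the term -/
noncomputable def Tr.val (τ : Tr K L) {α : Type} : K.Term α → L.Formula (Option α)
  | Term.var a => (Term.var none).equal (Term.var (some a))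
  | @Term.func _ _ k f ts => Formula.iExs (Fin k)
      ((Formula.iInf fun i => (τ.dom.relabel fun _ => Sum.inr i) ⊓
          (τ.val (ts i)).relabel fun o => o.elim (Sum.inr i) fun a => Sum.inl (some a)) ⊓
        (τ.fn f).relabel fun o => o.elim (Sum.inl none) Sum.inr)

/-- the translation, with quantifiers relativised to the domain -/
noncomputable def Tr.tr (τ : Tr K L) {α : Type} :
    ∀ {n : ℕ}, K.BoundedFormula α n → L.Formula (α ⊕ Fin n)
  | _, BoundedFormula.falsum => ⊥
  | _, BoundedFormula.equal s t => Formula.iExs Unit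
      ((τ.dom.relabel Sum.inr) ⊓ ((τ.val s).relabel fun o => o.elim (Sum.inr ()) Sum.inl) ⊓
        (τ.val t).relabel fun o => o.elim (Sum.inr ()) Sum.inl)
  | _, @BoundedFormula.rel _ _ _ k r ts => Formula.iExs (Fin k)
      ((Formula.iInf fun i => (τ.dom.relabel fun _ => Sum.inr i) ⊓
          (τ.val (ts i)).relabel fun o => o.elim (Sum.inr i) Sum.inl) ⊓
        (τ.rl r).relabel Sum.inr)
  | _, BoundedFormula.imp φ ψ => (τ.tr φ).imp (τ.tr ψ)
  | _, BoundedFormula.all φ => Formula.iAlls Unit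
      ((τ.dom.relabel Sum.inr).imp ((τ.tr φ).relabel (Sum.elim (fun a => Sum.inl (Sum.inl a))
        (Fin.lastCases (Sum.inr ()) fun i => Sum.inl (Sum.inr i)))))

/-- the translation of a formula -/
noncomputable def Tr.trF (τ : Tr K L) {α : Type} (φ : K.Formula α) : L.Formula α :=
  (τ.tr φ).relabel (Sum.elim id Fin.elim0)

/-- the sentence `∃ x, φ(x)` -/
noncomputable def ex (φ : L.Formula Unit) : L.Sentence := (φ.relabel Sum.inr).iExs Unit

/-- `τ` is an interpretation of `V` in `A` -/
def Tr.Interprets (τ : Tr K L) (A : L.Theory) (V : K.Theory) : Prop :=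
  A ⊨ᵇ ex τ.dom ∧
  (∀ (k : ℕ) (f : K.Functions k), A ⊨ᵇ (Formula.iInf fun i => τ.dom.relabel fun _ => i).imp
    (((τ.dom.relabel Sum.inr) ⊓
      (τ.fn f).relabel fun o => o.elim (Sum.inr ()) Sum.inl).iExsUnique Unit)) ∧
  ∀ σ ∈ V, A ⊨ᵇ τ.trF σ

/-- `A` directly interprets adjunctive set theory -/
def Sequential (A : L.Theory) : Prop := ∃ τ : Tr LS L, τ.Interprets A AS ∧ A ⊨ᵇ τ.dom

/-- `I` is an `N`-cut in `A` -/
def IsCut (A : L.Theory) (N : Tr LB L) (I : L.Formula Unit) : Prop :=
  A ⊨ᵇ I.imp N.dom ∧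
  A ⊨ᵇ (N.dom ⊓ (N.fn BF.zero).relabel fun _ => ()).imp I ∧
  A ⊨ᵇ ((I.relabel fun _ => (0 : Fin 2)) ⊓ (N.dom.relabel fun _ => 1) ⊓
    (N.fn BF.succ).relabel fun o => o.elim 1 fun _ => 0).imp (I.relabel fun _ => 1) ∧
  A ⊨ᵇ ((I.relabel fun _ => (1 : Fin 2)) ⊓ (N.dom.relabel fun _ => 0) ⊓ N.rl BR.le).imp
    (I.relabel fun _ => 0)

/-- quantifier rank -/
def qr {α : Type} : ∀ {n : ℕ}, L.BoundedFormula α n → ℕ
  | _, BoundedFormula.falsum => 0
  | _, BoundedFormula.equal _ _ => 0
  | _, BoundedFormula.rel _ _ => 0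
  | _, BoundedFormula.imp φ ψ => max (qr φ) (qr ψ)
  | _, BoundedFormula.all φ => qr φ + 1

/-- all formulas of the translation have quantifier rank at most `n` -/
def Tr.RankLE (τ : Tr K L) (n : ℕ) : Prop :=
  qr τ.dom ≤ n ∧ (∀ (k : ℕ) (f : K.Functions k), qr (τ.fn f) ≤ n) ∧
    ∀ (k : ℕ) (r : K.Relations k), qr (τ.rl r) ≤ n

/-- the formula `x ≤ m` of arithmetic -/
def leNum (m : ℕ) : LB.Formula Unit := Relations.formula BR.le ![Term.var (), num m]

end Pool.Agent.Lib.MP_7f8aca_lc
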