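import Pool.Agent.Lib.MP_7f8aca_lc.Code

set_option autoImplicit false

open FirstOrder FirstOrder.Language

namespace Pool.Agent.Lib.MP_7f8aca_lc

/-- extra function symbols -/
inductive XF : ℕ → Type
  | c : XF 0
  | bot : XF 0
  | eqc : XF 0
  | all : XF 1
  | drop : XF 1
  | sym : XF 1
  | imp : XF 2
  | cons : XF 2

/-- extra relation symbols -/
inductive XR : ℕ → Type
  | mem : XR 2
  | tru : XR 2
  | sat : XR 2

/-- the language of the counterexample -/
def LL : FirstOrder.Language.{0, 0} := ⟨fun k => BF k ⊕ XF k, fun k => BR k ⊕ XR k⟩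

instance finBF : Finite (Σ k, BF k) :=
  Finite.of_surjective (![⟨0, .zero⟩, ⟨1, .succ⟩, ⟨1, .len⟩, ⟨1, .half⟩, ⟨2, .add⟩, ⟨2, .mul⟩,
    ⟨2, .smash⟩] : Fin 7 → Σ k, BF k) (by
    rintro ⟨k, f⟩
    cases f
    exacts [⟨0, rfl⟩, ⟨1, rfl⟩, ⟨2, rfl⟩, ⟨3, rfl⟩, ⟨4, rfl⟩, ⟨5, rfl⟩, ⟨6, rfl⟩])

instance finBR : Finite (Σ k, BR k) :=
  Finite.of_surjective (![⟨2, .le⟩] : Fin 1 → Σ k, BR k) (by
    rintro ⟨k, f⟩
    cases f
    exact ⟨0, rfl⟩)

instance finXF : Finite (Σ k, XF k) :=
  Finite.of_surjective (![⟨0, .c⟩, ⟨0, .bot⟩, ⟨0, .eqc⟩, ⟨1, .all⟩, ⟨1, .drop⟩, ⟨1, .sym⟩,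
    ⟨2, .imp⟩, ⟨2, .cons⟩] : Fin 8 → Σ k, XF k) (by
    rintro ⟨k, f⟩
    cases f
    exacts [⟨0, rfl⟩, ⟨1, rfl⟩, ⟨2, rfl⟩, ⟨3, rfl⟩, ⟨4, rfl⟩, ⟨5, rfl⟩, ⟨6, rfl⟩, ⟨7, rfl⟩])

instance finXR : Finite (Σ k, XR k) :=
  Finite.of_surjective (![⟨2, .mem⟩, ⟨2, .tru⟩, ⟨2, .sat⟩] : Fin 3 → Σ k, XR k) (by
    rintro ⟨k, f⟩
    cases f
    exacts [⟨0, rfl⟩, ⟨1, rfl⟩, ⟨2, rfl⟩])

instance : Finite (Σ k, LB.Functions k) := finBF
instance : Finite (Σ k, LB.Relations k) := finBR

instance : Finite (Σ k, LL.Functions k) :=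
  Finite.of_surjective (Sum.elim (fun a : Σ k, BF k => (⟨a.1, Sum.inl a.2⟩ : Σ k, LL.Functions k))
    fun a : Σ k, XF k => ⟨a.1, Sum.inr a.2⟩) (by
    rintro ⟨k, f | f⟩
    exacts [⟨Sum.inl ⟨k, f⟩, rfl⟩, ⟨Sum.inr ⟨k, f⟩, rfl⟩])

instance : Finite (Σ k, LL.Relations k) :=
  Finite.of_surjective (Sum.elim (fun a : Σ k, BR k => (⟨a.1, Sum.inl a.2⟩ : Σ k, LL.Relations k))
    fun a : Σ k, XR k => ⟨a.1, Sum.inr a.2⟩) (by
    rintro ⟨k, f | f⟩
    exacts [⟨Sum.inl ⟨k, f⟩, rfl⟩, ⟨Sum.inr ⟨k, f⟩, rfl⟩])

/-- numbering of the symbols -/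
noncomputable def idxOf (K : FirstOrder.Language.{0, 0}) [Countable K.Symbols] : K.Symbols → ℕ :=
  (exists_injective_nat K.Symbols).choose

lemma idxOf_inj (K : FirstOrder.Language.{0, 0}) [Countable K.Symbols] :
    Function.Injective (idxOf K) := (exists_injective_nat K.Symbols).choose_spec

section terms
variable {α : Type}

/-- terms -/
def t0 (f : LL.Functions 0) : LL.Term α := Term.func f ![]
/-- terms -/
def t1 (f : LL.Functions 1) (a : LL.Term α) : LL.Term α := Term.func f ![a]
/-- terms -/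
def t2 (f : LL.Functions 2) (a b : LL.Term α) : LL.Term α := Term.func f ![a, b]
/-- atoms -/
def a2 (r : LL.Relations 2) (a b : LL.Term α) : LL.Formula α := Relations.formula r ![a, b]

/-- operations on terms -/
def termO : Ops (LL.Term α) where
  bot := t0 (.inr .bot)
  eqc := t0 (.inr .eqc)
  sym i := t1 (.inr .sym) ((t1 (.inl .succ))^[i] (t0 (.inl .zero)))
  imp := t2 (.inr .imp)
  all := t1 (.inr .all)
  drop := t1 (.inr .drop)
  cons := t2 (.inr .cons)

end terms

section sem
variable {W : Type}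

/-- values -/
def f0 (S : LL.Structure W) (f : LL.Functions 0) : W := S.funMap f ![]
/-- values -/
def f1 (S : LL.Structure W) (f : LL.Functions 1) (a : W) : W := S.funMap f ![a]
/-- values -/
def f2 (S : LL.Structure W) (f : LL.Functions 2) (a b : W) : W := S.funMap f ![a, b]
/-- values -/
def r2 (S : LL.Structure W) (r : LL.Relations 2) (a b : W) : Prop := S.RelMap r ![a, b]

/-- operations of a structure -/
def opsOf (S : LL.Structure W) : Ops W where
  bot := f0 S (.inr .bot)
  eqc := f0 S (.inr .eqc)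
  sym i := f1 S (.inr .sym) ((f1 S (.inl .succ))^[i] (f0 S (.inl .zero)))
  imp := f2 S (.inr .imp)
  all := f1 S (.inr .all)
  drop := f1 S (.inr .drop)
  cons := f2 S (.inr .cons)

/-- arithmetical reduct -/
@[reducible] def redB (S : LL.Structure W) : LB.Structure W where
  funMap f := S.funMap (.inl f)
  RelMap r := S.RelMap (.inl r)

/-- set theoretic reduct -/
@[reducible] def redS (S : LL.Structure W) : LS.Structure W where
  funMap f := Empty.elim f
  RelMap
    | SR.mem => S.RelMap (.inr .mem)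

/-- change the two symbols without axioms -/
@[reducible] def upd (S : LL.Structure W) (c : W) (sat : (Fin 2 → W) → Prop) : LL.Structure W where
  funMap
    | .inr .c => fun _ => c
    | f => S.funMap f
  RelMap
    | .inr .sat => sat
    | r => S.RelMap r

variable [S : LL.Structure W] {α : Type} (v : α → W)

@[simp] lemma re_t0 (f : LL.Functions 0) : (t0 f : LL.Term α).realize v = f0 S f := by
  simp only [t0, f0, Term.realize_func]
  congr 1
  exact Subsingleton.elim _ _

@[simp] lemma re_t1 (f : LL.Functions 1) (a : LL.Term α) :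
    (t1 f a).realize v = f1 S f (a.realize v) := by
  simp only [t1, f1, Term.realize_func]
  congr 1
  funext i
  fin_cases i
  rfl

@[simp] lemma re_t2 (f : LL.Functions 2) (a b : LL.Term α) :
    (t2 f a b).realize v = f2 S f (a.realize v) (b.realize v) := by
  simp only [t2, f2, Term.realize_func]
  congr 1
  funext i
  fin_cases i <;> rfl

@[simp] lemma re_a2 (r : LL.Relations 2) (a b : LL.Term α) :
    (a2 r a b).Realize v ↔ r2 S r (a.realize v) (b.realize v) := by
  simp only [a2, r2, Formula.realize_rel]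
  rw [iff_iff_eq]
  congr 1
  funext i
  fin_cases i <;> rfl

lemma re_sym (i : ℕ) : ((termO (α := α)).sym i).realize v = (opsOf S).sym i := by
  simp only [termO, opsOf, re_t1]
  congr 1
  induction i with
  | zero => simp
  | succ i ih => simp only [Function.iterate_succ_apply', re_t1, ih]

lemma re_ev (c : C) : ((termO (α := α)).ev c).realize v = (opsOf S).ev c := by
  induction c with
  | bot => exact re_t0 v _
  | eqc => exact re_t0 v _
  | sym i => exact re_sym v i
  | imp a b ih1 ih2 => simp only [Ops.ev, ← ih1, ← ih2]; exact re_t2 v _ _ _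
  | all a ih => simp only [Ops.ev, ← ih]; exact re_t1 v _ _
  | drop a ih => simp only [Ops.ev, ← ih]; exact re_t1 v _ _

lemma re_cons (a b : LL.Term α) :
    (termO.cons a b).realize v = (opsOf S).cons (a.realize v) (b.realize v) := re_t2 v _ _ _

lemma re_push {k : ℕ} (zs : Fin k → LL.Term α) (s : LL.Term α) :
    (push termO.cons zs s).realize v =
      push (opsOf S).cons (fun i => (zs i).realize v) (s.realize v) := by
  induction k with
  | zero => rfl
  | succ k ih => simp only [push, re_cons, ih]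

end sem

/-- universal closure -/
noncomputable def close (β : Type) [Finite β] (φ : LL.Formula β) : LL.Sentence :=
  (φ.relabel Sum.inr).iAlls β

lemma re_close {W : Type} [LL.Structure W] (β : Type) [Finite β] (φ : LL.Formula β) :
    W ⊨ close β φ ↔ ∀ v : β → W, φ.Realize v := by
  simp only [close, Sentence.Realize, Formula.realize_iAlls, Formula.realize_relabel,
    Function.comp_def, Sum.elim_inr]

/-- Tarski clauses as a sentence -/
noncomputable def tarskiS (r : LL.Relations 2) : LL.Sentence :=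
  close Unit (a2 r termO.bot (.var ())).not ⊓
  close (Fin 3) ((a2 r termO.eqc (termO.cons (.var 0) (termO.cons (.var 1) (.var 2)))).iff
    ((Term.var 0).equal (.var 1))) ⊓
  close (Fin 3) ((a2 r (termO.imp (.var 0) (.var 1)) (.var 2)).iff
    ((a2 r (.var 0) (.var 2)).imp (a2 r (.var 1) (.var 2)))) ⊓
  close (Fin 2) ((a2 r (termO.all (.var 0)) (.var 1)).iff
    ((a2 r (.var (.inl 0)) (termO.cons (.var (.inr ())) (.var (.inl 1)))).iAlls Unit)) ⊓
  close (Fin 4) ((a2 r (termO.drop (.var 0))
    (termO.cons (.var 1) (termO.cons (.var 2) (.var 3)))).iff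
    (a2 r (.var 0) (termO.cons (.var 1) (.var 3))))

lemma re_tarskiS {W : Type} [S : LL.Structure W] (r : LL.Relations 2) :
    W ⊨ tarskiS r ↔ TarskiP (opsOf S) (r2 S r) := by
  simp only [tarskiS, Sentence.realize_inf, re_close, Formula.realize_not, Formula.realize_iff,
    Formula.realize_imp, Formula.realize_iAlls, Formula.realize_equal, re_a2, termO, re_t0, re_t1,
    re_t2, Term.realize_var, Sum.elim_inl, Sum.elim_inr]
  constructor
  · rintro ⟨⟨⟨⟨h1, h2⟩, h3⟩, h4⟩, h5⟩
    exact ⟨fun s => h1 fun _ => s, fun x y s => h2 ![x, y, s], fun a b s => h3 ![a, b, s],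
      fun a s => (h4 ![a, s]).trans ⟨fun H x => H fun _ => x, fun H x => H _⟩,
      fun a x y s => h5 ![a, x, y, s]⟩
  · intro h
    exact ⟨⟨⟨⟨fun v => h.bot _, fun v => h.eqc _ _ _⟩, fun v => h.imp _ _ _⟩,
      fun v => (h.all _ _).trans ⟨fun H x => H _, fun H x => H fun _ => x⟩⟩,
      fun v => h.drop _ _ _ _⟩

/-- clauses for the symbols as a sentence -/
noncomputable def symS {K : FirstOrder.Language.{0, 0}} [Finite (Σ k, K.Functions k)]
    [Finite (Σ k, K.Relations k)] (τ : Tr K LL) (r : LL.Relations 2) : LL.Sentence :=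
  (Formula.iInf fun f : Σ k, K.Functions k => close (Option (Option (Fin f.1)))
    ((a2 r (termO.sym (idxOf K (.inl f))) (push termO.cons (fun i => .var (some (some i)))
      (termO.cons (.var (some none)) (.var none)))).iff ((τ.fn f.2).relabel some))) ⊓
  (Formula.iInf fun q : Σ k, K.Relations k => close (Option (Fin q.1))
    ((a2 r (termO.sym (idxOf K (.inr q))) (push termO.cons (fun i => .var (some i))
      (.var none))).iff ((τ.rl q.2).relabel some)))

lemma re_iInfS {W : Type} [LL.Structure W] {β : Type} [Finite β] (f : β → LL.Sentence) :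
    W ⊨ Formula.iInf f ↔ ∀ b, W ⊨ f b := Formula.realize_iInf

lemma re_symS {W : Type} [S : LL.Structure W] {K : FirstOrder.Language.{0, 0}}
    [Finite (Σ k, K.Functions k)] [Finite (Σ k, K.Relations k)] (τ : Tr K LL) (r : LL.Relations 2)
    (R : K.Structure W) (h : Matches τ S R) :
    W ⊨ symS τ r ↔ SymP (opsOf S) (idxOf K) R (r2 S r) := by
  simp only [symS, Sentence.realize_inf, re_iInfS, re_close, Formula.realize_iff, re_a2,
    Formula.realize_relabel, h.fn, h.rl, re_sym, re_push, re_cons, Term.realize_var,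
    Function.comp_def]
  constructor
  · rintro ⟨h1, h2⟩
    exact ⟨fun k f zs y s => h1 ⟨k, f⟩ fun o => o.elim s fun o => o.elim y zs,
      fun k q zs s => h2 ⟨k, q⟩ fun o => o.elim s zs⟩
  · intro H
    exact ⟨fun f v => H.fn _ _ _ _ _, fun q v => H.rl _ _ _ _⟩

/-- the interpretation of arithmetic -/
def N0 : Tr LB LL where
  dom := ⊤
  fn f := (Term.var none).equal (Term.func (.inl f) fun i => .var (some i))
  rl r := Relations.formula (.inl r) fun i => .var i

lemma matches_N0 {W : Type} (S : LL.Structure W) : Matches N0 S (redB S) :=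
  ⟨fun v => by simp [N0], fun k f v => by simp only [N0, Formula.realize_equal]; rfl,
    fun k r v => by simp only [N0, Formula.realize_rel]; rfl⟩

/-- the interpretation of set theory -/
def TS : Tr LS LL where
  dom := ⊤
  fn f := Empty.elim f
  rl
    | SR.mem => Relations.formula (.inr .mem) fun i => .var i

lemma matches_TS {W : Type} (S : LL.Structure W) : Matches TS S (redS S) :=
  ⟨fun v => by simp [TS], fun k f v => Empty.elim f,
    fun k r v => by cases r; simp only [TS, Formula.realize_rel]; rfl⟩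

/-- induction for the truth predicate -/
noncomputable def indS : LL.Sentence :=
  close (Fin 2) (((a2 (.inr .tru) (.var 0) (termO.cons (t0 (.inl .zero)) (.var 1))) ⊓
    (((a2 (.inr .tru) (.var (.inl 0)) (termO.cons (t1 (.inl .half) (.var (.inr ())))
      (.var (.inl 1)))).imp
      (a2 (.inr .tru) (.var (.inl 0)) (termO.cons (.var (.inr ())) (.var (.inl 1))))).iAlls
        Unit)).imp
    ((a2 (.inr .tru) (.var (.inl 0)) (termO.cons (.var (.inr ())) (.var (.inl 1)))).iAlls Unit))

/-- meaning of the induction sentence -/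
def IndP {W : Type} (S : LL.Structure W) : Prop :=
  ∀ a s, r2 S (.inr .tru) a ((opsOf S).cons (f0 S (.inl .zero)) s) →
    (∀ x, r2 S (.inr .tru) a ((opsOf S).cons (f1 S (.inl .half) x) s) →
      r2 S (.inr .tru) a ((opsOf S).cons x s)) → ∀ x, r2 S (.inr .tru) a ((opsOf S).cons x s)

lemma re_indS {W : Type} [S : LL.Structure W] : W ⊨ indS ↔ IndP S := by
  simp only [indS, re_close, Formula.realize_imp, Formula.realize_inf, Formula.realize_iAlls,
    re_a2, re_cons, re_t0, re_t1, Term.realize_var, Sum.elim_inl, Sum.elim_inr]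
  constructor
  · intro h a s h0 h1 x
    exact h ![a, s] ⟨h0, fun y => h1 _⟩ fun _ => x
  · intro h v h0 x
    exact h _ _ h0.1 (fun y => h0.2 fun _ => y) _

instance : Finite (AS : Set LS.Sentence) := by
  unfold AS
  exact Set.toFinite _

/-- the sentence that defines the theory -/
noncomputable def ax (Φ : Set LB.Sentence) [Finite Φ] : LL.Sentence :=
  (Formula.iInf fun φ : Φ => N0.trF φ.1) ⊓
    (Formula.iInf fun σ : (AS : Set LS.Sentence) => TS.trF σ.1) ⊓
    tarskiS (.inr .tru) ⊓ symS N0 (.inr .tru) ⊓ indS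

/-- its meaning -/
structure ModA (Φ : Set LB.Sentence) {W : Type} (S : LL.Structure W) : Prop where
  phi : ∀ φ ∈ Φ, @Sentence.Realize LB W (redB S) φ
  as : ∀ σ ∈ AS, @Sentence.Realize LS W (redS S) σ
  tar : TarskiP (opsOf S) (r2 S (.inr .tru))
  sym : SymP (opsOf S) (idxOf LB) (redB S) (r2 S (.inr .tru))
  ind : IndP S

lemma re_ax (Φ : Set LB.Sentence) [Finite Φ] {W : Type} [S : LL.Structure W] :
    W ⊨ ax Φ ↔ ModA Φ S := by
  simp only [ax, Sentence.realize_inf, re_iInfS, re_tarskiS, re_indS,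
    re_symS N0 _ (redB S) (matches_N0 S), @realize_trS LB LL N0 W S (redB S) (matches_N0 S),
    @realize_trS LS LL TS W S (redS S) (matches_TS S), Subtype.forall]
  exact ⟨fun ⟨⟨⟨⟨h1, h2⟩, h3⟩, h4⟩, h5⟩ => ⟨h1, h2, h3, h4, h5⟩,
    fun h => ⟨⟨⟨⟨h.1, h.2⟩, h.3⟩, h.4⟩, h.5⟩⟩

lemma ModA.upd {Φ : Set LB.Sentence} {W : Type} {S : LL.Structure W} (h : ModA Φ S) (c : W)
    (sat : (Fin 2 → W) → Prop) : ModA Φ (upd S c sat) :=
  ⟨h.1, h.2, h.3, h.4, h.5⟩

lemma ModA.pind {Φ : Set LB.Sentence} {W : Type} {S : LL.Structure W} (h : ModA Φ S)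
    (σ : LB.Sentence) (hσ : σ ∈ PIND) : @Sentence.Realize LB W (redB S) σ := by
  obtain ⟨n, φ, rfl⟩ := hσ
  let _ := redB S
  let ψ : LB.BoundedFormula Empty (n + 1) :=
    BoundedFormula.relabel (n := n + 1) (k := 0)
      (fun o : Option (Fin n) => o.elim (Sum.inr (Fin.last n)) fun i => Sum.inr i.castSucc) φ
  have key : ∀ (xs : Fin n → W) (x s : W),
      r2 S (.inr .tru) ((opsOf S).ev (codeF (idxOf LB) ψ))
        ((opsOf S).cons x (envc (opsOf S).cons xs s)) ↔
        φ.Realize fun o => o.elim x xs := by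
    intro xs x s
    have := sat_codeF h.tar h.sym ψ (Fin.snoc xs x) s
    simp only [envc, Fin.snoc_last, Fin.snoc_castSucc] at this
    rw [this]
    simp only [ψ]
    rw [BoundedFormula.realize_relabel, Formula.Realize, iff_iff_eq]
    congr 1
    · funext o
      cases o <;> simp [Fin.castAdd_zero]
    · exact Subsingleton.elim _ _
  have hs : ∀ (t : LB.Term (Fin n ⊕ Unit)) (v : Fin n ⊕ Unit → W),
      Formula.Realize (φ.subst fun o => o.elim t fun i => Term.var (Sum.inl i)) v ↔
        φ.Realize fun o => o.elim (t.realize v) fun i => v (Sum.inl i) := by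
    intro t v
    rw [Formula.Realize, BoundedFormula.realize_subst, Formula.Realize, iff_iff_eq]
    congr 1
    funext o
    cases o <;> rfl
  simp only [Pool.Agent.Lib.MP_7f8aca_lc.pind, Sentence.Realize, Formula.realize_iAlls,
    Formula.realize_relabel, Formula.realize_imp, Formula.realize_inf, hs, Function.comp_def,
    Sum.elim_inr, Sum.elim_inl, Term.realize_var]
  intro xs ⟨h0, h1⟩ x
  have s : W := x ()
  rw [← key xs _ s]
  refine h.ind _ _ ?_ (fun y hy => ?_) _
  · rw [key]
    convert h0 x using 3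
    simp only [num, Term.realize_func, f0]
    exact congrArg _ (Subsingleton.elim _ _)
  · rw [key] at hy ⊢
    refine h1 (fun _ => y) ?_
    convert hy using 3
    simp only [Term.realize_func, f1]
    congr 1
    funext i
    fin_cases i
    rfl

/-- the standard structure -/
@[reducible] noncomputable def S0 : LL.Structure ℕ where
  funMap
    | .inl f => stdB.funMap f
    | .inr .c => fun _ => 0
    | .inr .bot => fun _ => stdO.bot
    | .inr .eqc => fun _ => stdO.eqc
    | .inr .all => fun v => stdO.all (v 0)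
    | .inr .drop => fun v => stdO.drop (v 0)
    | .inr .sym => fun v => stdO.sym (v 0)
    | .inr .imp => fun v => stdO.imp (v 0) (v 1)
    | .inr .cons => fun v => stdO.cons (v 0) (v 1)
  RelMap
    | .inl r => stdB.RelMap r
    | .inr .mem => fun v => (v 1).testBit (v 0) = true
    | .inr .tru => fun v => satOf (idxOf LB) stdB (v 0) (v 1)
    | .inr .sat => fun _ => False

lemma opsOf_S0 : opsOf S0 = stdO := by
  have : ∀ i, (f1 S0 (.inl .succ))^[i] (f0 S0 (.inl .zero)) = i := by
    intro i
    induction i with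
    | zero => rfl
    | succ i ih => rw [Function.iterate_succ_apply', ih]; rfl
  simp only [opsOf, this]
  rfl

lemma modA_S0 (Φ : Set LB.Sentence) (h : ∀ φ ∈ Φ, @Sentence.Realize LB ℕ stdB φ) :
    ModA Φ S0 where
  phi := h
  as := by
    let _ := redS S0
    intro σ hσ
    rcases hσ with rfl | rfl
    · simp only [Sentence.Realize, Formula.Realize, BoundedFormula.realize_ex,
        BoundedFormula.realize_all, BoundedFormula.realize_not]
      refine ⟨0, fun y => ?_⟩
      change ¬ ((0 : ℕ).testBit y = true)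
      simp
    · simp only [Sentence.Realize, Formula.Realize, BoundedFormula.realize_ex,
        BoundedFormula.realize_all, BoundedFormula.realize_iff, BoundedFormula.realize_sup,
        BoundedFormula.realize_bdEqual]
      intro u v
      refine ⟨u ||| 2 ^ v, fun y => ?_⟩
      change (u ||| 2 ^ v).testBit y = true ↔ u.testBit y = true ∨ y = v
      rw [Nat.testBit_or, Bool.or_eq_true, Nat.testBit_two_pow, decide_eq_true_eq, eq_comm (a := v)]
  tar := by rw [opsOf_S0]; exact tarski_satOf _ _
  sym := by rw [opsOf_S0]; exact sym_satOf _ (idxOf_inj LB) _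
  ind := by
    intro a s h0 h1 x
    induction x using Nat.strong_induction_on with
    | _ x ih =>
      rcases Nat.eq_zero_or_pos x with rfl | hx
      · exact h0
      · exact h1 x (ih (x / 2) (by omega))

end Pool.Agent.Lib.MP_7f8aca_lc
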