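import Pool.Agent.Lib.MP_7f8aca_lc.Lang

set_option autoImplicit false

open FirstOrder FirstOrder.Language

namespace Pool.Agent.Lib.MP_7f8aca_lc

/-- the structure read off the predicate `sat` -/
noncomputable def HH : Tr LL LL where
  dom := ⊤
  fn {k} f := a2 (.inr .sat) (termO.sym (idxOf LL (.inl ⟨k, f⟩)))
    (push termO.cons (fun i => .var (some i)) (termO.cons (.var none) (t0 (.inl .zero))))
  rl {k} r := a2 (.inr .sat) (termO.sym (idxOf LL (.inr ⟨k, r⟩)))
    (push termO.cons (fun i => .var i) (t0 (.inl .zero)))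

/-- the identity, except that `c` is `0` -/
def FF : Tr LL LL where
  dom := ⊤
  fn
    | .inr .c => (Term.var none).equal (t0 (.inl .zero))
    | f => (Term.var none).equal (Term.func f fun i => .var (some i))
  rl r := Relations.formula r fun i => .var i

lemma matches_FF {W : Type} (S : LL.Structure W) :
    Matches FF S (upd S (f0 S (.inl .zero)) (S.RelMap (.inr .sat))) := by
  refine ⟨fun v => by simp [FF], fun k f v => ?_, fun k r v => ?_⟩
  · rcases f with f | f
    · simp only [FF, Formula.realize_equal]; rfl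
    · cases f <;> simp only [FF, Formula.realize_equal, re_t0] <;> rfl
  · simp only [FF, Formula.realize_rel]
    rcases r with r | r
    · rfl
    · cases r <;> rfl

lemma matches_HH {W : Type} (S R : LL.Structure W)
    (h : SymP (opsOf S) (idxOf LL) R (r2 S (.inr .sat))) : Matches HH S R := by
  refine ⟨fun v => by simp [HH], fun k f v => ?_, fun k r v => ?_⟩
  · have := h.fn k f (fun i => v (some i)) (v none) (f0 S (.inl .zero))
    rw [← this]
    simp only [HH]
    rw [@re_a2 W S, @re_sym W S, @re_push W S, @re_cons W S, @re_t0 W S]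
    rfl
  · have := h.rl k r v (f0 S (.inl .zero))
    rw [← this]
    simp only [HH]
    rw [@re_a2 W S, @re_sym W S, @re_push W S, @re_t0 W S]
    rfl

/-- the graphs are graphs of functions -/
noncomputable def funS : LL.Sentence :=
  Formula.iInf fun f : Σ k, LL.Functions k => close (Fin f.1)
    (((HH.fn f.2).relabel fun o => o.elim (Sum.inr ()) Sum.inl).iExsUnique Unit)

/-- the fixed part of the guard -/
noncomputable def gfix : LL.Sentence := tarskiS (.inr .sat) ⊓ symS HH (.inr .sat) ⊓ funS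

lemma re_funS {W : Type} [S : LL.Structure W] :
    W ⊨ funS ↔ ∃ R : LL.Structure W, Matches HH S R := by
  simp only [funS, re_iInfS, re_close, Formula.realize_iExsUnique, Formula.realize_relabel]
  constructor
  · intro h
    choose F hF using fun (k : ℕ) (f : LL.Functions k) (v : Fin k → W) => h ⟨k, f⟩ v
    refine ⟨⟨fun {k} f v => F k f v (), fun {k} r v => (HH.rl r).Realize v⟩,
      fun v => by simp [HH], fun k f v => ?_, fun k r v => Iff.rfl⟩
    obtain ⟨h1, h2⟩ := hF k f fun i => v (some i)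
    have e : ∀ y : Unit → W, y () = v none →
        (Sum.elim (fun i => v (some i)) y ∘ fun o : Option (Fin k) =>
          o.elim (Sum.inr ()) Sum.inl) = v := by
      intro y hy
      funext o
      cases o
      · exact hy
      · rfl
    constructor
    · intro H
      have := h2 (fun _ => v none) (by beta_reduce; rw [e _ rfl]; exact H)
      exact congrFun this ()
    · intro H
      rw [e _ H.symm] at h1
      exact h1
  · rintro ⟨R, hR⟩ f v
    simp only [hR.fn, Function.comp_def, Option.elim, Sum.elim_inl, Sum.elim_inr]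
    exact ⟨fun _ => _, rfl, fun y hy => funext fun _ => hy⟩

lemma re_gfix {W : Type} [S : LL.Structure W] :
    W ⊨ gfix ↔ TarskiP (opsOf S) (r2 S (.inr .sat)) ∧
      ∃ R : LL.Structure W, SymP (opsOf S) (idxOf LL) R (r2 S (.inr .sat)) := by
  simp only [gfix, Sentence.realize_inf, re_tarskiS, re_funS]
  constructor
  · rintro ⟨⟨h1, h2⟩, R, hR⟩
    exact ⟨h1, R, (@re_symS W S LL _ _ HH _ R hR).mp h2⟩
  · rintro ⟨h1, R, hR⟩
    have := matches_HH S R hR
    exact ⟨⟨h1, (@re_symS W S LL _ _ HH _ R this).mpr hR⟩, R, this⟩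

/-- the guard -/
noncomputable def guard (ψ : LL.Sentence) : LL.Sentence :=
  gfix ⊓ a2 (.inr .sat) (termO.ev (codeF (idxOf LL) ψ)) (t0 (.inl .zero))

lemma re_guard {W : Type} [S : LL.Structure W] (ψ : LL.Sentence) :
    W ⊨ guard ψ ↔ TarskiP (opsOf S) (r2 S (.inr .sat)) ∧
      ∃ R : LL.Structure W, SymP (opsOf S) (idxOf LL) R (r2 S (.inr .sat)) ∧
        @Sentence.Realize LL W R ψ := by
  rw [guard, Sentence.realize_inf, re_gfix, Sentence.Realize, re_a2, re_ev]
  constructor
  · rintro ⟨⟨h1, R, hR⟩, h2⟩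
    exact ⟨h1, R, hR, (@sat_sentence W LL _ _ _ R h1 hR ψ _).mp h2⟩
  · rintro ⟨h1, R, hR, h2⟩
    exact ⟨⟨h1, R, hR⟩, (@sat_sentence W LL _ _ _ R h1 hR ψ _).mpr h2⟩

/-- the disjunctive interpretation -/
noncomputable def MM (ψ : LL.Sentence) : Tr LL LL where
  dom := ⊤
  fn f := (((guard ψ).relabel Empty.elim) ⊓ HH.fn f) ⊔
    ((((guard ψ).relabel Empty.elim : LL.Formula _).not) ⊓ FF.fn f)
  rl r := (((guard ψ).relabel Empty.elim) ⊓ HH.rl r) ⊔
    ((((guard ψ).relabel Empty.elim : LL.Formula _).not) ⊓ FF.rl r)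

lemma re_lift {W : Type} [S : LL.Structure W] {α : Type} (σ : LL.Sentence) (v : α → W) :
    Formula.Realize (Formula.relabel Empty.elim σ) v ↔ W ⊨ σ := by
  rw [Formula.realize_relabel, Sentence.Realize, iff_iff_eq]
  congr 1
  exact Subsingleton.elim _ _

lemma matches_MM_pos {W : Type} (S R : LL.Structure W) (ψ : LL.Sentence)
    (hg : @Sentence.Realize LL W S (guard ψ)) (h : Matches HH S R) : Matches (MM ψ) S R := by
  refine ⟨fun v => by simp [MM], fun k f v => ?_, fun k r v => ?_⟩
  · rw [← h.fn]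
    clear h R
    simp only [MM, Formula.realize_sup, Formula.realize_inf, Formula.realize_not, re_lift, hg,
      true_and, not_true, false_and, or_false]
  · rw [← h.rl]
    clear h R
    simp only [MM, Formula.realize_sup, Formula.realize_inf, Formula.realize_not, re_lift, hg,
      true_and, not_true, false_and, or_false]

lemma matches_MM_neg {W : Type} (S R : LL.Structure W) (ψ : LL.Sentence)
    (hg : ¬ @Sentence.Realize LL W S (guard ψ)) (h : Matches FF S R) : Matches (MM ψ) S R := by
  refine ⟨fun v => by simp [MM], fun k f v => ?_, fun k r v => ?_⟩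
  · rw [← h.fn]
    clear h R
    simp only [MM, Formula.realize_sup, Formula.realize_inf, Formula.realize_not, re_lift, hg,
      true_and, not_false_iff, false_and, false_or]
  · rw [← h.rl]
    clear h R
    simp only [MM, Formula.realize_sup, Formula.realize_inf, Formula.realize_not, re_lift, hg,
      true_and, not_false_iff, false_and, false_or]

lemma rank_MM (ψ : LL.Sentence) (n : ℕ) (hn : qr gfix ≤ n) : (MM ψ).RankLE n := by
  have hg : qr (guard ψ) = qr gfix := by
    rw [guard, qr_inf]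
    exact max_eq_left (Nat.zero_le _)
  refine ⟨Nat.zero_le _, fun k f => ?_, fun k r => ?_⟩
  · have h1 : qr (HH.fn f) = 0 := rfl
    have h2 : qr (FF.fn f) = 0 := by
      rcases f with f | f
      · rfl
      · cases f <;> rfl
    simp only [MM, qr_sup, qr_inf, qr_not, qr_relabel, hg, h1, h2]
    simpa using hn
  · have h1 : qr (HH.rl r) = 0 := rfl
    have h2 : qr (FF.rl r) = 0 := rfl
    simp only [MM, qr_sup, qr_inf, qr_not, qr_relabel, hg, h1, h2]
    simpa using hn

/-- the formula `x = c` -/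
def B0 : LL.Formula Unit := (Term.var ()).equal (t0 (.inr .c))

section
variable (Φ : Set LB.Sentence) [Finite Φ]

/-- the theory -/
def AA : LL.Theory := {ax Φ}

variable {Φ}

lemma model_AA {W : Type} [S : LL.Structure W] : W ⊨ AA Φ ↔ ModA Φ S := by
  rw [← re_ax, AA, Theory.model_iff]
  simp

lemma cut_zero {I : LL.Formula Unit} (hI : IsCut (AA Φ) N0 I) {W : Type} [Nonempty W]
    (S : LL.Structure W) (h : ModA Φ S) : I.Realize fun _ => f0 S (.inl .zero) := by
  have := model_AA.mpr h
  have h1 := hI.2.1.realize_formula W (v := fun _ => f0 S (.inl .zero))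
  rw [Formula.realize_imp, Formula.realize_inf, Formula.realize_relabel, (matches_N0 S).fn] at h1
  refine h1 ⟨(matches_N0 S).dom _, ?_⟩
  change S.funMap _ _ = S.funMap _ _
  congr 1
  exact Subsingleton.elim _ _

lemma cut_succ {I : LL.Formula Unit} (hI : IsCut (AA Φ) N0 I) {W : Type} [Nonempty W]
    (S : LL.Structure W) (h : ModA Φ S) (x : W) (hx : I.Realize fun _ => x) :
    I.Realize fun _ => f1 S (.inl .succ) x := by
  have := model_AA.mpr h
  have h1 := hI.2.2.1.realize_formula W (v := ![x, f1 S (.inl .succ) x])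
  simp only [Formula.realize_imp, Formula.realize_inf, Formula.realize_relabel,
    (matches_N0 S).fn] at h1
  refine h1 ⟨⟨hx, (matches_N0 S).dom _⟩, ?_⟩
  change S.funMap _ _ = S.funMap _ _
  congr 1
  funext i
  fin_cases i
  rfl

lemma re_num (m : ℕ) (v : Unit → ℕ) : @Term.realize LB ℕ stdB _ v (num m) = m := by
  induction m with
  | zero => rfl
  | succ m ih => exact congrArg (· + 1) ih

lemma exists_S1 (h : ∀ φ ∈ Φ, @Sentence.Realize LB ℕ stdB φ) {I : LL.Formula Unit}
    (hI : IsCut (AA Φ) N0 I) :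
    ∃ S1 : LL.Structure ℕ, @Sentence.Realize LL ℕ S1 (ax Φ ⊓ ex (I ⊓ B0)) ∧
      ∀ m, ¬ @Sentence.Realize LL ℕ S1 (ex (N0.dom ⊓ N0.trF (leNum m) ⊓ B0)) := by
  let T : ℕ → LL.Theory := fun m => {ax Φ ⊓ ex (I ⊓ B0),
    (ex (N0.dom ⊓ N0.trF (leNum m) ⊓ B0)).not} ∪ LL.infiniteTheory
  have hsat : Theory.IsSatisfiable (⋃ m, T m) := by
    rw [Theory.isSatisfiable_iUnion_iff_isSatisfiable_iUnion_finset]
    intro s
    let S : LL.Structure ℕ := upd S0 (s.sup id + 1) fun _ => False
    have hS : ModA Φ S := (modA_S0 Φ h).upd _ _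
    have hall : ∀ x : ℕ, I.Realize fun _ => x := by
      intro x
      induction x with
      | zero => exact cut_zero hI S hS
      | succ x ih => exact cut_succ hI S hS x ih
    have : ℕ ⊨ ⋃ m ∈ s, T m := by
      rw [Theory.model_iff]
      intro φ hφ
      simp only [Set.mem_iUnion] at hφ
      obtain ⟨m, hm, hφ⟩ := hφ
      rcases hφ with (rfl | rfl) | hφ
      · rw [Sentence.realize_inf, re_ax, realize_ex]
        refine ⟨hS, s.sup id + 1, ?_⟩
        rw [Formula.realize_inf]
        exact ⟨hall _, by rw [B0, Formula.realize_equal, re_t0]; rfl⟩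
      · rw [Sentence.realize_not, realize_ex]
        rintro ⟨x, hx⟩
        rw [Formula.realize_inf, Formula.realize_inf,
          @realize_trF LB LL N0 ℕ S (redB S) (matches_N0 S), B0, Formula.realize_equal,
          re_t0] at hx
        have h1 : x ≤ @Term.realize LB ℕ stdB _ (fun _ => x) (num m) :=
          (@Formula.realize_rel LB ℕ (redB S) _ _ _ _ _).mp hx.1.2
        have h2 : x = s.sup id + 1 := hx.2
        rw [re_num] at h1
        have h3 : m ≤ s.sup id := Finset.le_sup (f := id) hm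
        omega
      · exact Theory.realize_sentence_of_mem LL.infiniteTheory hφ
    exact Theory.Model.isSatisfiable ℕ
  obtain ⟨M⟩ := hsat
  have hinf : Infinite M := by
    rw [← model_infiniteTheory_iff LL]
    exact M.is_model.mono (Set.subset_iUnion_of_subset 0 Set.subset_union_right)
  obtain ⟨N, hN⟩ := Theory.exists_model_card_eq ⟨M, hinf⟩ Cardinal.aleph0.{0} le_rfl (by
    simp only [Cardinal.lift_id, Language.card]
    exact Cardinal.mk_le_aleph0)
  obtain ⟨e⟩ : Nonempty (N ≃ ℕ) := Cardinal.eq.mp (by rw [hN, Cardinal.mk_nat])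
  refine ⟨e.inducedStructure, ?_, fun m => ?_⟩
  · let _ : LL.Structure ℕ := e.inducedStructure
    rw [← StrongHomClass.realize_sentence (Equiv.inducedStructureEquiv (L := LL) e)]
    exact Theory.realize_sentence_of_mem (⋃ m, T m)
      (Set.mem_iUnion.mpr ⟨0, Or.inl (Or.inl rfl)⟩)
  · let _ : LL.Structure ℕ := e.inducedStructure
    rw [← StrongHomClass.realize_sentence (Equiv.inducedStructureEquiv (L := LL) e),
      ← Sentence.realize_not]
    exact Theory.realize_sentence_of_mem (⋃ m, T m)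
      (Set.mem_iUnion.mpr ⟨m, Or.inl (Or.inr rfl)⟩)

lemma inner_model {I : LL.Formula Unit} (hI : IsCut (AA Φ) N0 I) {W : Type} [Nonempty W]
    (S : LL.Structure W) (h : ModA Φ S) :
    ∃ R : LL.Structure W, Matches (MM (ax Φ ⊓ ex (I ⊓ B0))) S R ∧
      @Sentence.Realize LL W R (ax Φ) ∧ @Sentence.Realize LL W R (ex (I ⊓ B0)) := by
  by_cases hg : @Sentence.Realize LL W S (guard (ax Φ ⊓ ex (I ⊓ B0)))
  · obtain ⟨-, R, hR, h2⟩ := (@re_guard W S _).mp hg
    exact ⟨R, matches_MM_pos S R _ hg (matches_HH S R hR),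
      (@Sentence.realize_inf LL W R _ _).mp h2⟩
  · refine ⟨_, matches_MM_neg S _ _ hg (matches_FF S), ?_⟩
    have h' := h.upd (f0 S (.inl .zero)) (S.RelMap (.inr .sat))
    have hz := cut_zero hI _ h'
    generalize hR : upd S (f0 S (.inl .zero)) (S.RelMap (.inr .sat)) = R at h' hz
    have hc : f0 R (.inr .c) = f0 R (.inl .zero) := by subst hR; rfl
    clear hR hg h S
    refine ⟨(re_ax Φ).mpr h', ?_⟩
    rw [realize_ex]
    refine ⟨_, Formula.realize_inf.mpr ⟨hz, ?_⟩⟩
    rw [B0, Formula.realize_equal, re_t0, hc]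
    rfl

theorem main (h : ∀ φ ∈ Φ, @Sentence.Realize LB ℕ stdB φ) :
    Sequential (AA Φ) ∧ N0.Interprets (AA Φ) (Φ ∪ PIND) ∧
    ∀ I : LL.Formula Unit, IsCut (AA Φ) N0 I →
      ∃ M : Tr LL LL, M.Interprets (AA Φ) (AA Φ) ∧ (∀ n, qr gfix ≤ n → M.RankLE n) ∧
        AA Φ ⊨ᵇ M.trF (ex (I ⊓ B0)) ∧
        ∀ m : ℕ, ¬ AA Φ ⊨ᵇ M.trF (ex (N0.dom ⊓ N0.trF (leNum m) ⊓ B0)) := by
  refine ⟨⟨TS, interprets_of_matches _ _ _ fun W => ⟨_, matches_TS W.struc,
      (model_AA.mp W.is_model).as⟩, Theory.models_formula_iff.mpr fun W v =>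
      (matches_TS W.struc).dom v⟩,
    interprets_of_matches _ _ _ fun W => ⟨_, matches_N0 W.struc, fun σ hσ =>
      hσ.elim ((model_AA.mp W.is_model).phi σ) ((model_AA.mp W.is_model).pind σ)⟩,
    fun I hI => ⟨MM (ax Φ ⊓ ex (I ⊓ B0)), interprets_of_matches _ _ _ fun W => ?_,
      rank_MM _, Theory.models_sentence_iff.mpr fun W => ?_, fun m hm => ?_⟩⟩
  · obtain ⟨R, h1, h2, -⟩ := inner_model hI W.struc (model_AA.mp W.is_model)
    exact ⟨R, h1, fun σ hσ => by rw [Set.mem_singleton_iff.mp hσ]; exact h2⟩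
  · obtain ⟨R, h1, -, h2⟩ := inner_model hI W.struc (model_AA.mp W.is_model)
    exact (@realize_trS LL LL _ W W.struc R h1 _).mpr h2
  · obtain ⟨S1, h1, h2⟩ := exists_S1 h hI
    let S : LL.Structure ℕ := upd S0 0 fun v => satOf (idxOf LL) S1 (v 0) (v 1)
    have hS : ModA Φ S := (modA_S0 Φ h).upd _ _
    have ho : opsOf S = stdO := opsOf_S0
    have hsym : SymP (opsOf S) (idxOf LL) S1 (r2 S (.inr .sat)) := by
      rw [ho]; exact sym_satOf _ (idxOf_inj LL) S1
    have hg : @Sentence.Realize LL ℕ S (guard (ax Φ ⊓ ex (I ⊓ B0))) :=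
      (@re_guard ℕ S _).mpr ⟨by rw [ho]; exact tarski_satOf _ S1, S1, hsym, h1⟩
    have hM := matches_MM_pos S S1 _ hg (matches_HH S S1 hsym)
    have := (@model_AA Φ _ ℕ S).mpr hS
    exact h2 m ((@realize_trS LL LL _ ℕ S S1 hM _).mp
      (@Theory.ModelsBoundedFormula.realize_sentence LL _ _ hm ℕ S this _))

end

end Pool.Agent.Lib.MP_7f8aca_lc
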