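import Pool.Agent.Lib.MP_7f8aca_lc.Defs

set_option autoImplicit false

open FirstOrder FirstOrder.Language

namespace Pool.Agent.Lib.MP_7f8aca_lc

variable {K L : FirstOrder.Language.{0, 0}}

/-- the translation defines the structure `R` on the whole of `W` -/
structure Matches (τ : Tr K L) {W : Type} (S : L.Structure W) (R : K.Structure W) : Prop where
  dom : ∀ v : Unit → W, @Formula.Realize L W S _ τ.dom v
  fn : ∀ (k : ℕ) (f : K.Functions k) (v : Option (Fin k) → W),
    @Formula.Realize L W S _ (τ.fn f) v ↔ v none = R.funMap f fun i => v (some i)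
  rl : ∀ (k : ℕ) (r : K.Relations k) (v : Fin k → W),
    @Formula.Realize L W S _ (τ.rl r) v ↔ R.RelMap r v

section
variable {τ : Tr K L} {W : Type} [S : L.Structure W] [R : K.Structure W]

lemma realize_val (h : Matches τ S R) {α : Type} (t : K.Term α) (v : Option α → W) :
    (τ.val t).Realize v ↔ v none = t.realize fun a => v (some a) := by
  induction t generalizing v with
  | var a => simp [Tr.val]
  | func f ts ih =>
    simp only [Tr.val, Formula.realize_iExs, Formula.realize_inf, Formula.realize_iInf,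
      Formula.realize_relabel, ih, h.dom, true_and, h.fn, Function.comp_def, Option.elim,
      Sum.elim_inl, Sum.elim_inr, Term.realize_func]
    constructor
    · rintro ⟨zs, h1, h2⟩
      rw [h2]
      congr 1
      exact funext h1
    · intro h1
      exact ⟨_, fun _ => rfl, h1⟩

lemma realize_tr (h : Matches τ S R) {α : Type} {n : ℕ} (φ : K.BoundedFormula α n)
    (v : α ⊕ Fin n → W) :
    (τ.tr φ).Realize v ↔ φ.Realize (fun a => v (Sum.inl a)) fun i => v (Sum.inr i) := by
  have he : ∀ {n : ℕ} (v : α ⊕ Fin n → W),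
      Sum.elim (fun a => v (Sum.inl a)) (fun i => v (Sum.inr i)) = v := fun v => by
    funext x; cases x <;> rfl
  induction φ with
  | falsum => simp [Tr.tr, BoundedFormula.Realize]
  | equal s t =>
    simp only [Tr.tr, Formula.realize_iExs, Formula.realize_inf, Formula.realize_relabel,
      realize_val h, h.dom, true_and, Function.comp_def, Option.elim, Sum.elim_inl, Sum.elim_inr,
      BoundedFormula.Realize, he]
    constructor
    · rintro ⟨z, h1, h2⟩
      rw [← h1, h2]
    · intro h1
      exact ⟨fun _ => _, rfl, h1⟩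
  | rel r ts =>
    simp only [Tr.tr, Formula.realize_iExs, Formula.realize_inf, Formula.realize_iInf,
      Formula.realize_relabel, realize_val h, h.dom, true_and, h.rl, Function.comp_def,
      Option.elim, Sum.elim_inl, Sum.elim_inr, BoundedFormula.Realize, he]
    constructor
    · rintro ⟨zs, h1, h2⟩
      rw [← funext h1]
      exact h2
    · intro h1
      exact ⟨_, fun _ => rfl, h1⟩
  | imp φ ψ ih1 ih2 =>
    simp only [Tr.tr, Formula.realize_imp, ih1, ih2, BoundedFormula.Realize]
  | all φ ih =>
    simp only [Tr.tr, Formula.realize_iAlls, Formula.realize_imp, Formula.realize_relabel, ih,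
      h.dom, true_imp_iff, Function.comp_def, Sum.elim_inl, Sum.elim_inr, BoundedFormula.Realize]
    have e : ∀ x : Unit → W, (fun i => Sum.elim v x
        (Fin.lastCases (Sum.inr ()) (fun i => Sum.inl (Sum.inr i)) i)) =
        Fin.snoc (fun i => v (Sum.inr i)) (x ()) := by
      intro x
      funext i
      refine Fin.lastCases ?_ (fun j => ?_) i <;> simp
    simp only [e]
    exact ⟨fun H x => H fun _ => x, fun H x => H _⟩

lemma realize_trF (h : Matches τ S R) {α : Type} (φ : K.Formula α) (v : α → W) :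
    (τ.trF φ).Realize v ↔ φ.Realize v := by
  rw [Tr.trF, Formula.realize_relabel, realize_tr h, Formula.Realize]
  simp only [Function.comp_def, Sum.elim_inl, id]
  rw [iff_iff_eq]
  congr 1
  exact Subsingleton.elim _ _

lemma realize_trS (h : Matches τ S R) (φ : K.Sentence) : W ⊨ τ.trF φ ↔ W ⊨ φ :=
  realize_trF h φ _

end

lemma realize_ex {W : Type} [L.Structure W] (φ : L.Formula Unit) :
    W ⊨ ex φ ↔ ∃ x : W, φ.Realize fun _ => x := by
  simp only [ex, Sentence.Realize, Formula.realize_iExs, Formula.realize_relabel,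
    Function.comp_def, Sum.elim_inr]
  exact ⟨fun ⟨x, hx⟩ => ⟨x (), hx⟩, fun ⟨x, hx⟩ => ⟨fun _ => x, hx⟩⟩

lemma interprets_of_matches (τ : Tr K L) (A : L.Theory) (V : K.Theory)
    (h : ∀ W : Theory.ModelType.{0, 0, 0} A, ∃ R : K.Structure W,
      Matches τ W.struc R ∧ ∀ σ ∈ V, @Sentence.Realize K W R σ) : τ.Interprets A V := by
  refine ⟨Theory.models_sentence_iff.mpr fun W => ?_, fun k f => ?_, fun σ hσ => ?_⟩
  · obtain ⟨R, hR, -⟩ := h W
    rw [realize_ex]
    exact ⟨Classical.arbitrary W, hR.dom _⟩
  · refine Theory.models_formula_iff.mpr fun W v => ?_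
    obtain ⟨R, hR, -⟩ := h W
    rw [Formula.realize_imp, Formula.realize_iExsUnique]
    intro _
    simp only [Formula.realize_inf, Formula.realize_relabel, hR.dom, true_and, hR.fn,
      Function.comp_def, Option.elim, Sum.elim_inl, Sum.elim_inr]
    exact ⟨fun _ => _, rfl, fun y hy => funext fun _ => hy⟩
  · refine Theory.models_sentence_iff.mpr fun W => ?_
    obtain ⟨R, hR, hV⟩ := h W
    exact (@realize_trS K L τ W W.struc R hR σ).mpr (hV σ hσ)

lemma qr_castLE {α : Type} {m n : ℕ} (h : m ≤ n) (φ : L.BoundedFormula α m) :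
    qr (φ.castLE h) = qr φ := by
  induction φ generalizing n with
  | falsum => rfl
  | equal => rfl
  | rel => rfl
  | imp _ _ ih1 ih2 => simp [BoundedFormula.castLE, qr, ih1, ih2]
  | all _ ih => simp [BoundedFormula.castLE, qr, ih]

lemma qr_relabelB {α β : Type} {n k : ℕ} (g : α → β ⊕ Fin n) (φ : L.BoundedFormula α k) :
    qr (φ.relabel g) = qr φ := by
  induction φ with
  | falsum => rfl
  | equal => rfl
  | rel => rfl
  | imp φ ψ ih1 ih2 =>
    rw [BoundedFormula.relabel_imp]
    simp [qr, ih1, ih2]
  | all _ ih =>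
    rw [BoundedFormula.relabel_all]
    simp [qr, ih]

lemma qr_relabel {α β : Type} (g : α → β) (φ : L.Formula α) : qr (φ.relabel g) = qr φ :=
  qr_relabelB (n := 0) _ φ

lemma qr_not {α : Type} {n : ℕ} (φ : L.BoundedFormula α n) : qr φ.not = qr φ := by
  change max (qr φ) 0 = _
  simp

lemma qr_inf {α : Type} {n : ℕ} (φ ψ : L.BoundedFormula α n) :
    qr (φ ⊓ ψ) = max (qr φ) (qr ψ) := by
  change max (max (qr φ) (max (qr ψ) 0)) 0 = _
  simp

lemma qr_sup {α : Type} {n : ℕ} (φ ψ : L.BoundedFormula α n) :
    qr (φ ⊔ ψ) = max (qr φ) (qr ψ) := by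
  change max (max (qr φ) 0) (qr ψ) = _
  simp

end Pool.Agent.Lib.MP_7f8aca_lc
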